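import Pool.Agent.Lib.K5.Top
import Pool.Agent.Lib.RBR.B_KIT
import Pool.Agent.Lib.RBR.B_HOL
import Pool.Agent.Lib.RBR.B_NEG
import Pool.Agent.Lib.RBR.B_PML

/-! Project k5 assembled. -/

namespace Pool.Agent.Lib.K5

theorem aK5 (hK6 : KU.St_K6) (hTR : KU.St_TR) : KU.St_K5 :=
  tK5 hK6 hTR (RBR.rKIT RBR.rNEG RBR.rPML) RBR.rHOL

end Pool.Agent.Lib.K5
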