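import Pool.Agent.Lib.HS32.MAll

/-! Project k5: a smooth function with all negative moments has no zero. -/

open scoped Classical Topology ContDiff ComplexOrder Matrix ENNReal
open Set MeasureTheory Metric Filter

noncomputable section

namespace Pool.Agent.Lib.K5

open Pool.Agent.Lib.SV (E)
open Pool.Agent.Lib.HS32 Pool.Agent.Lib.HS32.Mf

namespace End

/-- The pointwise inequality. -/
theorem pt {W u q : ℝ≥0∞} {s : ℝ} {k N : ℕ} (s0 : 0 < s) (hk : 1 / s ≤ k) (N0 : N ≠ 0)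
    (q0 : q ≠ 0) :
    q ^ N ≤ 1 + W * (u * q) ^ (N * (k + 2)) + W ^ (-s) + u⁻¹ ^ (N * (k + 2)) := by
  have t0 : N * (k + 2) ≠ 0 := by positivity
  generalize ht : N * (k + 2) = t at *
  set m := 1 + W * (u * q) ^ t + W ^ (-s) + u⁻¹ ^ t with hm
  rcases eq_or_ne m ⊤ with h | h
  · exact h ▸ le_top
  have a1 : 1 ≤ m := le_self_add.trans (le_self_add.trans le_self_add)
  have a2 : W * (u * q) ^ t ≤ m := le_add_self.trans (le_self_add.trans le_self_add)
  have a3 : W ^ (-s) ≤ m := le_add_self.trans le_self_add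
  have a4 : u⁻¹ ^ t ≤ m := le_add_self
  have w0 : W ≠ 0 := fun h0 => h (top_le_iff.1 (by
    rwa [h0, ENNReal.zero_rpow_of_neg (neg_lt_zero.2 s0)] at a3))
  have u0 : u ≠ 0 := fun h0 => h (top_le_iff.1 (by
    rwa [h0, ENNReal.inv_zero, ENNReal.top_pow t0] at a4))
  have w1 : W ≠ ⊤ := fun h0 => h (top_le_iff.1 (by
    rwa [h0, ENNReal.top_mul (pow_ne_zero _ (mul_ne_zero u0 q0))] at a2))
  have u1 : u ≠ ⊤ := fun h0 => h (top_le_iff.1 (by
    rwa [h0, ENNReal.top_mul q0, ENNReal.top_pow t0, ENNReal.mul_top w0] at a2))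
  have a5 : W⁻¹ ≤ m ^ k := by
    rw [← ENNReal.rpow_neg_one, show (-1 : ℝ) = -s * (1 / s) by field_simp, ENNReal.rpow_mul,
      ← ENNReal.rpow_natCast]
    exact (ENNReal.rpow_le_rpow a3 (by positivity)).trans
      (ENNReal.rpow_le_rpow_of_exponent_le a1 hk)
  have e : q ^ t = W⁻¹ * (W * (u * q) ^ t) * u⁻¹ ^ t := by
    rw [← mul_assoc, ENNReal.inv_mul_cancel w0 w1, one_mul, ← mul_pow, mul_right_comm,
      ENNReal.mul_inv_cancel u0 u1, one_mul]
  refine (ENNReal.pow_le_pow_left_iff (n := k + 2) (by omega)).1 ?_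
  rw [← pow_mul, ht, e, pow_succ, pow_succ]
  exact mul_le_mul' (mul_le_mul' a5 a2) a4

/-- A smooth function with a zero has an infinite negative moment. -/
theorem top {n : ℕ} {M : Mf n} [M.Cpt] {H : M.Fam (Mat n)} {Q : M.X → ℝ} (hH : M.Met H)
    (hQ : M.Sm Q) {x : M.X} (h0 : Q x = 0) :
    ∫⁻ y, (ENNReal.ofReal (Q y))⁻¹ ^ (Module.finrank ℝ (E n) + 1) ∂M.mu H = ⊤ := by
  by_contra hI
  set D := Module.finrank ℝ (E n) with hD
  set e := M.ch x with he
  set z := e x with hz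
  obtain ⟨C, C0, hC⟩ :=
    ((hQ e (ch_mem x) z (ch_tgt x)).differentiableAt (by simp)).isBigO_sub.exists_pos
  have c0 := pd_det_re (hH.ev_pos x)
  have ct : ContinuousAt (fun w => (H e w).det.re) z :=
    (Complex.continuous_re.comp (continuous_id.matrix_det)).continuousAt.comp
      (hH.sm e (ch_mem x) z (ch_tgt x)).continuousAt
  obtain ⟨R, R0, hR⟩ := Metric.eventually_nhds_iff_ball.1 (hC.bound.and
    ((ct.eventually_const_le (half_lt_self c0)).and (e.open_target.mem_nhds (ch_tgt x))))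
  set c := (M.ev H x).det.re / 2 with hc
  have c1 : 0 < c := half_pos c0
  set I := ∫⁻ y, (ENNReal.ofReal (Q y))⁻¹ ^ (D + 1) ∂M.mu H with hI'
  set v := (volume : Measure (E n)) (ball 0 1) with hv
  have v0 : 0 < v.toReal :=
    ENNReal.toReal_pos (measure_ball_pos _ _ one_pos).ne' measure_ball_lt_top.ne
  have k : ∀ r ∈ Ioo 0 R, c * v.toReal ≤ r * (C ^ (D + 1) * I.toReal) := fun r hr => by
    have r0 := hr.1
    have sb : ball z r ⊆ ball z R := ball_subset_ball hr.2.le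
    have i1 := ((mMU n M H hH).2.2.2.2.2.1 e (ch_mem x) (ball z r) measurableSet_ball
      fun w hw => (hR w (sb hw)).2.2).2.1 fun y => (ENNReal.ofReal (Q y))⁻¹ ^ (D + 1)
    have i2 : ENNReal.ofReal (c * ((C * r)⁻¹) ^ (D + 1)) * volume (ball z r) ≤ I := by
      refine le_trans ?_ (i1.ge.trans (setLIntegral_le_lintegral _ _))
      rw [← setLIntegral_const]
      refine setLIntegral_mono' measurableSet_ball fun w hw => ?_
      obtain ⟨b1, b2, -⟩ := hR w (sb hw)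
      rw [ENNReal.ofReal_mul c1.le, ENNReal.ofReal_pow (by positivity),
        ENNReal.ofReal_inv_of_pos (by positivity)]
      refine mul_le_mul' (ENNReal.ofReal_le_ofReal b2) (pow_le_pow_left' (ENNReal.inv_le_inv.2
        (ENNReal.ofReal_le_ofReal ?_)) _)
      simp only [Function.comp, hz, he, ch_symm, h0, sub_zero] at b1
      exact (le_abs_self _).trans (b1.trans
        (mul_le_mul_of_nonneg_left (mem_ball_iff_norm.1 hw).le C0.le))
    rw [Measure.addHaar_ball_of_pos _ _ r0, ← mul_assoc, ← ENNReal.ofReal_mul (by positivity)] at i2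
    have i3 := ENNReal.toReal_mono hI i2
    rw [ENNReal.toReal_mul, ENNReal.toReal_ofReal (by positivity)] at i3
    refine le_of_eq_of_le ?_ ((mul_le_mul_of_nonneg_left i3
      (show 0 ≤ r * C ^ (D + 1) by positivity)).trans_eq (mul_assoc _ _ _))
    rw [inv_pow, mul_pow]
    field_simp
    ring
  have l : Tendsto (fun r : ℝ => r * (C ^ (D + 1) * I.toReal)) (𝓝[>] 0) (𝓝 0) := by
    simpa using ((tendsto_id (x := 𝓝 (0 : ℝ))).mul_const (C ^ (D + 1) * I.toReal)).mono_left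
      nhdsWithin_le_nhds
  exact (mul_pos c1 v0).not_ge (ge_of_tendsto l (mem_of_superset (Ioo_mem_nhdsGT R0) k))

end End

theorem nozero {n : ℕ} {M : Mf n} [M.Cpt] {H : M.Fam (Mat n)} {Q : M.X → ℝ} {u W : M.X → ℝ≥0∞}
    {s : ℝ} (hH : M.Met H) (s0 : 0 < s) (hQ : M.Sm Q) (mW : AEMeasurable W (M.mu H))
    (mu : AEMeasurable u (M.mu H)) (iW : ∫⁻ x, W x ^ (-s) ∂M.mu H ≠ ⊤)
    (iu : ∀ t : ℕ, ∫⁻ x, (u x)⁻¹ ^ t ∂M.mu H ≠ ⊤)
    (mom : ∀ t : ℕ, ∫⁻ x, W x * (u x / ENNReal.ofReal (Q x)) ^ t ∂M.mu H ≠ ⊤) (x : M.X) :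
    Q x ≠ 0 := fun h0 => by
  have := (mMU n M H hH).2.1
  refine ne_top_of_le_ne_top ?_ (lintegral_mono fun y => End.pt (W := W y) (u := u y) s0
    (Nat.le_ceil _) (Nat.succ_ne_zero _) (ENNReal.inv_ne_zero.2 ENNReal.ofReal_ne_top))
    (End.top hH hQ h0)
  rw [lintegral_add_right' _ (mu.fun_inv.pow_const _), lintegral_add_right' _ (mW.pow_const _),
    lintegral_add_left measurable_const, lintegral_const]
  exact ENNReal.add_ne_top.2 ⟨ENNReal.add_ne_top.2 ⟨ENNReal.add_ne_top.2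
    ⟨ENNReal.mul_ne_top ENNReal.one_ne_top (measure_ne_top _ _), mom _⟩, iW⟩, iu _⟩

end Pool.Agent.Lib.K5
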