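import Pool.Agent.Lib.RBR.Blue

/-! Project k5: square integrable holomorphic functions are functions of the generators. -/

open scoped Classical Topology ContDiff ComplexOrder Matrix ENNReal
open Set MeasureTheory Complex Metric Filter

noncomputable section

namespace Pool.Agent.Lib.K5

open Pool.Agent.Lib.SV (E)
open Pool.Agent.Lib.HS32 Pool.Agent.Lib.RBR
open Pool.Agent.Lib.KH (HoK Jo Cmp)
open Pool.Agent.Lib.RB9 (Pz ev)

variable {n k : ℕ} {M : Mf n} [M.Cpt] {H : M.Fam (Mat n)} {p σ T κ : M.X → ℝ} {z : M.X → E k}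
  {θ F γ : M.X → ℂ} {m : Pz k} {D : MvPolynomial (Fin k) ℂ} {C : ℝ} {d j : ℕ} {ε : ℕ → ℝ}
  {φ : ℕ → M.X → ℝ}

theorem fldA (hKIT : St_KIT) (h : Frm H p σ z θ T m D C) (hF : Tm p F) :
    ∃ g : E k × ℂ → ℂ, ∀ᵐ x ∂M.mu H, F x = g (z x, θ x) := by
  obtain ⟨-, -, -, k1, -, -, -, -, -, k2, -, -, -, -, k3⟩ :=
    hKIT n k M H p σ z θ T m D C h
  obtain ⟨Q, R, h0, hQ⟩ := h.fn F hF
  refine ⟨fun q => ev R q.1 q.2 / MvPolynomial.eval q.1 Q, ?_⟩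
  filter_upwards [k1, (k3 _ ((k2 _ _ h.tz).2.2.1 Q) (h.ind Q h0)).1] with x hx h1
  rw [eq_div_iff h1, mul_comm]
  exact hQ x hx.1

theorem fldC (hKIT : St_KIT) (h : Frm H p σ z θ T m D C) (hγ : Bq p T j 0 γ)
    (h0 : Nz p γ) :
    Cmp M H (Oz p σ γ) ∧ ∀ᵐ x ∂M.mu H, x ∈ Oz p σ γ := by
  obtain ⟨-, -, -, k1, -, -, -, -, -, -, k2, -, -, -, k3⟩ :=
    hKIT n k M H p σ z θ T m D C h
  obtain ⟨_, hs⟩ := k2 j 0
  obtain ⟨a1, a2, -⟩ := k3 γ (hs γ hγ).2 h0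
  exact ⟨a2, (k1.and a1).mono fun x hx => ⟨hx.1.1, hx.1.2, hx.2⟩⟩

theorem fldB (hKIT : St_KIT) (h : Frm H p σ z θ T m D C) (hA : Adj H p σ T d κ ε φ)
    (hγ : Bq p T j 0 γ)
    (h0 : Nz p γ) {T₀ : M.X → ℝ} {B : ℝ} (hT : ∀ x ∈ Oz p σ γ, 0 ≤ T₀ x ∧ T₀ x ≤ B ∧
      T₀ x ^ d = normSq (γ x) * T x ^ j) (l : ℕ) (hF : HoK M (Oz p σ γ) F)
    (hJ : Jo M H (Oz p σ γ)
      (fun x => normSq (F x) * (T₀ x ^ l * (κ x * T x ^ ((1 : ℝ) / d)))) ≠ ⊤) :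
    ∃ g : E k × ℂ → ℂ, ∀ᵐ x ∂M.mu H, F x = g (z x, θ x) := by
  obtain ⟨-, -, k0, -, -, -, -, -, -, -, k2, -⟩ :=
    hKIT n k M H p σ z θ T m D C h
  obtain ⟨c1, c2⟩ := fldC hKIT h hγ h0
  obtain ⟨s₀, hr⟩ := h.rem
  obtain ⟨a, c, ha⟩ := h.low
  obtain ⟨s, c', hs⟩ := hA.lo
  obtain ⟨_, t1⟩ := k2 j 0
  obtain ⟨e, he⟩ := Nat.exists_eq_add_one_of_ne_zero hA.d0.ne'
  have key : ∀ x ∈ Oz p σ γ, ENNReal.ofReal (normSq (F x * γ x ^ l) *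
      (T x ^ (j * l) * p x ^ (s + a))) ≤ ENNReal.ofReal ((B ^ e) ^ l * (|c'| * max c 1)) *
      ENNReal.ofReal (normSq (F x) * (T₀ x ^ l * (κ x * T x ^ ((1 : ℝ) / d)))) := fun x hx => by
    obtain ⟨b0, b1, b2⟩ := hT x hx
    have B0 := b0.trans b1
    have p0 := hx.1
    have T0 := k0 x p0
    have κ0 := hA.k0 x ⟨p0, hx.2.1⟩
    have y0 := Real.rpow_pos_of_pos T0 ((1 : ℝ) / d)
    have m1 := le_max_right c 1
    have u1 : p x ^ a ≤ max c 1 * T x ^ ((1 : ℝ) / d) := by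
      refine le_of_pow_le_pow_left₀ hA.d0.ne' (by positivity) ?_
      rw [mul_pow, one_div, Real.rpow_inv_natCast_pow T0.le hA.d0.ne']
      exact (pow_le_of_le_one (by positivity) (pow_le_one₀ p0.le (h.p1 x)) hA.d0.ne').trans
        ((ha x p0).trans (mul_le_mul_of_nonneg_right ((le_max_left c 1).trans
          (le_self_pow₀ m1 hA.d0.ne')) T0.le))
    have u2 : p x ^ s ≤ |c'| * κ x :=
      (hs x ⟨p0, hx.2.1⟩).trans (mul_le_mul_of_nonneg_right (le_abs_self _) κ0.le)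
    have u3 : (normSq (γ x) * T x ^ j) ^ l ≤ (B ^ e) ^ l * T₀ x ^ l := by
      rw [← b2, he, pow_succ, mul_pow]
      gcongr
    rw [← ENNReal.ofReal_mul (by positivity)]
    refine ENNReal.ofReal_le_ofReal (le_of_eq_of_le (b := normSq (F x) *
      ((normSq (γ x) * T x ^ j) ^ l * (p x ^ s * p x ^ a))) ?_ (le_of_le_of_eq
        (mul_le_mul_of_nonneg_left (mul_le_mul u3 (mul_le_mul u2 u1 (by positivity) (by positivity))
          (by positivity) (by positivity)) (normSq_nonneg _)) (by ring)))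
    rw [normSq_mul, map_pow]
    ring
  obtain ⟨F', f1, f2⟩ := hr γ (t1 γ hγ).2 h0 (j * l) (s + a) (fun x => F x * γ x ^ l)
    (fun e he w hw ho => ((hF e he w hw ho).and (hγ.1 e he w hw ho.1)).mono fun _ u =>
      u.1.mul (u.2.pow l))
    (ne_top_of_le_ne_top (ENNReal.mul_ne_top (ENNReal.ofReal_ne_top
      (r := (B ^ e) ^ l * (|c'| * max c 1))) hJ) (le_trans (setLIntegral_mono' c1.1.measurableSet
        key) (lintegral_const_mul' _ _ ENNReal.ofReal_ne_top).le))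
  obtain ⟨_, t2⟩ := k2 (j * l) (s₀ * (s + a + 1))
  obtain ⟨g₁, h₁⟩ := fldA hKIT h (t2 F' f1).2
  obtain ⟨g₂, h₂⟩ := fldA hKIT h (t1 γ hγ).2
  refine ⟨fun q => g₁ q / g₂ q ^ l, ?_⟩
  filter_upwards [c2, h₁, h₂] with x hx u1 u2
  rw [← u1, ← u2, f2 x hx, mul_div_cancel_right₀ _ (pow_ne_zero l hx.2.2)]

end Pool.Agent.Lib.K5
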