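import Pool.Agent.Lib.K5.Sec
import Pool.Agent.Lib.K5.End
import Pool.Agent.Lib.RBR.Blue
import Pool.Agent.Lib.KX.Defs

/-! Project k5: the reference metric has zero Lelong numbers; the bundle is semi-ample. -/

open scoped Classical Topology ContDiff ENNReal ComplexOrder
open Set MeasureTheory Complex Filter Metric

noncomputable section

namespace Pool.Agent.Lib.K5

open Pool.Agent.Lib.SV (E nsq)
open Pool.Agent.Lib.HS32 Pool.Agent.Lib.HS32.Mf Pool.Agent.Lib.KH Pool.Agent.Lib.RBR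
open Pool.Agent.Lib.KX (Ms)

variable {n : ℕ} {M : Mf n} {L : M.Co} {H Θ : M.Fam (Mat n)} {ψ : M.Fam ℝ} {τ t : M.Fam ℂ}
  {O : Set M.X} {a : ℝ → M.X → ℝ}

theorem zf [M.Cpt] (hH : M.Met H) {c : ℝ} (c0 : 0 < c)
    (h1 : ∀ e ∈ Ioc (0 : ℝ) 1, ZK.Env M (Θ + e • H) (a e) e)
    (h2 : ∀ e ∈ Ioc (0 : ℝ) 1, ∀ e' ∈ Ioc 0 e, ∀ x, a e' x ≤ a e x + e)
    (h3 : ∀ m : ℝ, 0 < m → ∃ C : ℝ, ∀ e ∈ Ioc (0 : ℝ) 1,
      ∫ x, Real.exp (-(m * a e x)) ∂M.mu H ≤ C) :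
    ∃ Λ : M.X → ℝ, Measurable Λ ∧ (∀ x, 0 ≤ Λ x ∧ Λ x ≤ 1 ∧
      Tendsto (fun i : ℕ => Real.exp (c * a ((1 / 2) ^ i) x)) atTop (𝓝 (Λ x))) ∧
      ∀ t : ℕ, ∫⁻ x, (ENNReal.ofReal (Λ x))⁻¹ ^ t ∂M.mu H ≠ ⊤ := by
  have m : ∀ i : ℕ, (1 / 2 : ℝ) ^ i ∈ Ioc (0 : ℝ) 1 := fun i =>
    ⟨by positivity, pow_le_one₀ (by norm_num) (by norm_num)⟩
  have ct : ∀ (r : ℝ) (i : ℕ), Continuous fun x => Real.exp (r * a ((1 / 2) ^ i) x) := fun r i =>
    (continuous_const.mul (h1 _ (m i)).sm.continuous).rexp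
  have : ∀ x, ∃ l, Tendsto (fun i : ℕ => Real.exp (c * a ((1 / 2) ^ i) x)) atTop (𝓝 l) := fun x => by
    have l1 := tendsto_atTop_ciInf (f := fun i : ℕ =>
      Real.exp (c * (a ((1 / 2) ^ i) x + 2 * (1 / 2) ^ i))) (antitone_nat_of_succ_le fun i => by
        have := h2 _ (m i) ((1 / 2) ^ (i + 1)) ⟨(m _).1, by rw [pow_succ]; linarith [(m i).1]⟩ x
        refine Real.exp_le_exp.2 (mul_le_mul_of_nonneg_left ?_ c0.le)
        rw [pow_succ] at this ⊢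
        linarith) ⟨0, by rintro _ ⟨i, rfl⟩; exact (Real.exp_pos _).le⟩
    have l2 := ((tendsto_pow_atTop_nhds_zero_of_lt_one (r := (1 / 2 : ℝ)) (by norm_num)
      (by norm_num)).const_mul (-(2 * c))).rexp
    exact ⟨_, (l1.mul l2).congr fun i => by rw [← Real.exp_add]; exact congrArg _ (by ring)⟩
  choose Λ hΛ using this
  refine ⟨Λ, measurable_of_tendsto_metrizable (fun i => (ct c i).measurable) (tendsto_pi_nhds.2 hΛ),
    fun x => ⟨ge_of_tendsto' (hΛ x) fun i => (Real.exp_pos _).le, le_of_tendsto' (hΛ x) fun i =>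
      Real.exp_le_one_iff.2 (mul_nonpos_of_nonneg_of_nonpos c0.le ((h1 _ (m i)).np x)), hΛ x⟩,
    fun t => ?_⟩
  obtain ⟨C, hC⟩ := h3 ((t + 1) * c) (by positivity)
  refine ne_top_of_le_ne_top (ENNReal.ofReal_ne_top (r := C)) (le_trans (lintegral_mono fun x => ?_)
    ((lintegral_liminf_le fun i => (ct (-((t + 1) * c)) i).measurable.ennreal_ofReal).trans
      (liminf_le_of_frequently_le' (Frequently.of_forall (f := atTop) fun i => ?_))))
  · refine (((ENNReal.continuous_pow t).tendsto _).comp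
      (ENNReal.tendsto_ofReal (hΛ x)).inv).liminf_eq.ge.trans (liminf_le_liminf (.of_forall
        fun i => ?_))
    rw [Function.comp_apply, ← ENNReal.ofReal_inv_of_pos (Real.exp_pos _),
      ← ENNReal.ofReal_pow (by positivity), ← Real.exp_neg, ← Real.exp_nat_mul]
    refine ENNReal.ofReal_le_ofReal (Real.exp_le_exp.2 ?_)
    nlinarith [(h1 _ (m i)).np x]
  · rw [← ofReal_integral_eq_lintegral_ofReal ((mMU n M H hH).2.2.2.2.1 ℝ _ (ct _ i))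
      (.of_forall fun _ => (Real.exp_pos _).le)]
    simp only [neg_mul]
    exact ENNReal.ofReal_le_ofReal (hC _ (m i))

theorem nr_mul {q : ℕ} {g : ℂ} {x : M.X} (h : M.ev t x = g * M.ev τ x ^ q) :
    M.nrC ((q : ℝ) • ψ) t x = normSq g * M.nrC ψ τ x ^ q := by
  rw [nrC, nrC, h, map_mul, map_pow, mul_pow, ← Real.exp_nat_mul, mul_assoc, mul_neg]
  rfl

theorem quo {q : ℕ} (hO : IsOpen O) (ms : Ms O L τ) (ht : M.HSecC (L.pw q) t) :
    HoK M O (fun x => M.ev t x / M.ev τ x ^ q) ∧ ∀ x ∈ O, M.ev τ x ≠ 0 := by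
  refine ⟨fun e he z hz k => ?_, fun x hx =>
    (ms.hol _ (ch_mem x) _ (ch_tgt x) (by rwa [ch_symm])).2⟩
  have e1 : ∀ᶠ w in 𝓝 z, w ∈ e.target ∧ e.symm w ∈ O :=
    (e.open_target.eventually_mem hz).and ((e.continuousAt_symm hz).eventually_mem (hO.mem_nhds k))
  filter_upwards [e1.eventually_nhds] with w hw
  have w0 := hw.self_of_nhds
  have b := ms.hol e he w w0.1 w0.2
  refine ((ht.hol e he w w0.1).fun_mul ((b.1.self_of_nhds.fun_pow q).fun_inv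
    (pow_ne_zero _ b.2))).congr_of_eventuallyEq (hw.mono fun v hv => ?_)
  have hx := e.map_target hv.1
  have a1 := evC ht he hx
  have a2 := ms.law _ (ch_mem _) e he _ (mem_ch _) hx hv.2
  rw [e.right_inv hv.1] at a1 a2
  beta_reduce
  rw [a1, a2, mul_pow, ← div_eq_mul_inv]
  exact (mul_div_mul_right _ _ (pow_ne_zero q (L.ne _ (ch_mem _) e he _ (mem_ch _) hx))).symm

/-- The lower bound of the reference metric. -/
theorem low [M.Cpt] (hK : RBR.St_KIT) (hI : RBR.St_HOL) {k r r₁ r₂ d C : ℕ}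
    (X : Mo M k r r₁ r₂)
    (wt : M.WtC L ψ) (ms : Ms {x | 0 < X.p x} L τ) (hT : ∀ x, 0 < X.p x → X.T x = M.nrC ψ τ x)
    {δ : ℕ} (δ0 : 0 < δ) (cur : M.All fun e z => M.hw ψ e z = (δ : ℝ) • Θ e z)
    (h1 : ∀ e ∈ Ioc (0 : ℝ) 1, ZK.Env M (Θ + e • X.H) (a e) e)
    (h2 : ∀ e ∈ Ioc (0 : ℝ) 1, ∀ e' ∈ Ioc 0 e, ∀ x, a e' x ≤ a e x + e)
    (h3 : ∀ m : ℝ, 0 < m → ∃ C : ℝ, ∀ e ∈ Ioc (0 : ℝ) 1,
      ∫ x, Real.exp (-(m * a e x)) ∂M.mu X.H ≤ C)
    (nu : ∃ C : ℝ, ∀ e ∈ Ioc (0 : ℝ) 1,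
      ∫ x, M.dq X.H (Θ + e • X.H) x ∂M.mu X.H ≤ C * e ^ (n - d))
    (gro : {j : ℕ | 0 < j ∧ ∃ (m : ℕ) (s : Fin m → M.Fam ℂ), (j + 1) ^ d ≤ C * m ∧
      (∀ a, M.HSecC (L.pw j) (s a)) ∧ LinearIndependent ℂ fun a => M.ev (s a)}.Infinite) :
    ∃ Λ : M.X → ℝ, Measurable Λ ∧ (∀ x, 0 ≤ Λ x) ∧
      (∀ t : ℕ, ∫⁻ x, (ENNReal.ofReal (Λ x))⁻¹ ^ t ∂M.mu X.H ≠ ⊤) ∧ ∃ A > (0 : ℝ),
        ∀ᵐ x ∂M.mu X.H, Λ x ^ X.N ≤ A * (X.T x ^ X.N * KJ.tq X.a X.b x) := by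
  obtain ⟨m, m0, t, s, ht, hs, h0, hr⟩ := rnk L gro
  obtain ⟨k1, -, k3, k4, -, -, -, -, -, -, k5, -, -, k6, k7⟩ := hK n k M _ _ _ _ _ _ _ _ _ X.fr
  have hH := X.fr.kae.toMet
  have fin := (mMU n M _ hH).2.1
  have c1 : (1 : ℝ) ≤ m * δ := by exact_mod_cast Nat.mul_pos m0 δ0
  have c0 : (0 : ℝ) < m * δ := one_pos.trans_le c1
  obtain ⟨Λ, l1, l2, l3⟩ := zf hH c0 h1 h2 h3
  obtain ⟨w1, w2⟩ := wt.pw m
  have w3 : M.All fun e z => M.hw ((m : ℝ) • ψ) e z = (m * δ : ℝ) • Θ e z := fun e he z hz => by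
    beta_reduce
    rw [w2 e he z hz, cur e he z hz, smul_smul]
  obtain ⟨q1, q2⟩ := quo k1 ms ht
  set γ := fun x => M.ev t x / M.ev τ x ^ m with hγ
  have q3 : ∀ x, 0 < X.p x → M.nrC ((m : ℝ) • ψ) t x = normSq (γ x) * X.T x ^ m := fun x hx => by
    rw [hT x hx]
    exact nr_mul (div_mul_cancel₀ _ (pow_ne_zero _ (q2 x hx))).symm
  obtain ⟨B, B0, hB⟩ := (w1.nr_sm ht.toSecC).exists_bound
  replace hB := fun x => (le_abs_self _).trans (hB x)
  have fn : ∀ j c g, Bq X.p X.T j c g → ∃ g₀ : E k × ℂ → ℂ,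
      ∀ᵐ x ∂M.mu X.H, g x = g₀ (X.z x, X.θ x) := fun j c g hg => by
    refine ⟨fun y => if h : ∃ x, 0 < X.p x ∧ (X.z x, X.θ x) = y then g h.choose else 0, ?_⟩
    filter_upwards [k4, k6 g ((k5 j c).choose_spec g hg).2] with x x1 x2
    have h : ∃ x', 0 < X.p x' ∧ (X.z x', X.θ x') = (X.z x, X.θ x) := ⟨x, x1.1, rfl⟩
    rw [dif_pos h]
    exact (x2 _ ⟨h.choose_spec.1, Prod.ext_iff.1 h.choose_spec.2⟩).symm
  have bq : Bq X.p X.T m 0 γ := ⟨q1, B, fun x hx => by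
    rw [pow_zero, mul_one, ← q3 x hx]
    exact hB x⟩
  have tm := ((k5 m 0).choose_spec γ bq).2
  have nz : Nz X.p γ := by
    obtain ⟨x, x1, x2⟩ := (deC ht h0).inter_open_nonempty _ k1 X.fr.ne
    exact ⟨x, x1, div_ne_zero x2 (pow_ne_zero _ (q2 x x1))⟩
  obtain ⟨g₀, hg₀⟩ := fn _ _ _ bq
  obtain ⟨n1, n2, -⟩ := k7 γ tm nz
  have ae : ∀ᵐ x ∂M.mu X.H, x ∈ Oz X.p X.σ γ := by
    filter_upwards [k4, n1] with x x1 x2 using ⟨x1.1, x1.2, x2⟩
  have mO := n2.1.measurableSet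
  have t0 : ∀ x ∈ Oz X.p X.σ γ, 0 < M.nrC ((m : ℝ) • ψ) t x := fun x hx =>
    (q3 x hx.1).symm ▸ mul_pos (normSq_pos.2 hx.2.2) (pow_pos (k3 x hx.1) _)
  have d1 : (1 : ℝ) ≤ m * X.d := by exact_mod_cast Nat.mul_pos m0 X.ad.d0
  set η : ℝ := 1 / (m * X.d) with hη
  have η0 : 0 < η := by positivity
  have η1 : η ≤ 1 := (div_le_one (by positivity)).2 d1
  let f : M.X → ℝ := fun x => -(Real.log (X.κ x) + η * Real.log (M.nrC ((m : ℝ) • ψ) t x))
  have ef : ∀ x ∈ Oz X.p X.σ γ, Real.exp (-f x) ≤ (B + 1) * X.κ x ∧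
      X.κ x * M.nrC ((m : ℝ) • ψ) t x ≤ (B + 1) * Real.exp (-f x) := fun x hx => by
    have κ0 := X.ad.k0 x ⟨hx.1, hx.2.1⟩
    have b1 := Real.log_le_log (t0 x hx) ((hB x).trans (le_add_of_nonneg_right zero_le_one))
    have b2 := Real.log_nonneg (le_add_of_nonneg_left B0.le : 1 ≤ B + 1)
    rw [neg_neg, Real.exp_add, Real.exp_log κ0, mul_comm (B + 1), mul_left_comm]
    refine ⟨mul_le_mul_of_nonneg_left ?_ κ0.le, mul_le_mul_of_nonneg_left ?_ κ0.le⟩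
    · rw [← Real.exp_log (by positivity : 0 < B + 1), Real.exp_le_exp]
      nlinarith
    · rw [← Real.exp_log (by positivity : 0 < B + 1), ← Real.exp_add,
        ← Real.log_le_iff_le_exp (t0 x hx)]
      nlinarith
  have loc : OnK M (Oz X.p X.σ γ) fun e z => ContDiffAt ℝ ∞ (f ∘ e.symm) z ∧
      M.hs f e z + M.ric X.H e z = 0 := fun e he z hz hx => by
    obtain ⟨a1, a2, -⟩ := ((mHOL n _ z).2.2 (q1 e he z hz hx.1)).2.2.2 hx.2.2
    have a3 := X.ad.sk e he z hz ⟨hx.1, hx.2.1⟩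
    have a4 := X.ad.sT e he z hz hx.1
    have e1 : ∀ᶠ u in 𝓝 z, f (e.symm u) = -(Real.log (X.κ (e.symm u)) +
        (η * Real.log (normSq (γ (e.symm u))) + 1 / X.d * Real.log (X.T (e.symm u)))) := by
      filter_upwards [(e.continuousAt_symm hz).eventually (n2.1.mem_nhds hx)] with u hu
      simp only [f, q3 _ hu.1]
      rw [Real.log_mul (normSq_pos.2 hu.2.2).ne' (pow_pos (k3 _ hu.1) _).ne', Real.log_pow, mul_add,
        ← mul_assoc, show η * m = 1 / X.d by rw [hη]; field_simp]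
    refine ⟨(a3.add ((contDiffAt_const.mul a1).add (contDiffAt_const.mul a4))).neg
      |>.congr_of_eventuallyEq e1, ?_⟩
    have e2 : M.lc f e =ᶠ[𝓝 z] fun u => -(M.lc (fun x => Real.log (X.κ x)) e u +
        ((η : ℂ) * (Real.log (normSq ((γ ∘ e.symm) u)) : ℝ) +
          ((1 / X.d : ℝ) : ℂ) * M.lc (fun x => Real.log (X.T x)) e u)) := e1.mono fun u hu => by
      simp only [lc, hu, ofReal_neg, ofReal_add, ofReal_mul, Function.comp_apply]
    have a5 : ContDiffAt ℝ ∞ (M.lc (fun x => Real.log (X.T x)) e) z := cd_ofReal a4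
    have a6 : ContDiffAt ℝ ∞ (M.lc (fun x => Real.log (X.κ x)) e) z := cd_ofReal a3
    rw [Mf.hs, hess_congr e2, hess_neg, hess_add a6 ((contDiffAt_const.mul
      (cd_ofReal a1)).add (contDiffAt_const.mul a5)), hess_add (contDiffAt_const.mul (cd_ofReal a1))
        (contDiffAt_const.mul a5), hess_const_mul _ (cd_ofReal a1), hess_const_mul _ a5, a2,
      smul_zero, zero_add, ← X.ad.ric e he z hz ⟨hx.1, hx.2.1⟩]
    exact neg_add_cancel _
  have mi : ∀ i : ℕ, (1 / 2 : ℝ) ^ i ∈ Ioc (0 : ℝ) 1 := fun i =>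
    ⟨by positivity, pow_le_one₀ (by norm_num) (by norm_num)⟩
  obtain ⟨g, hg⟩ := dep X.fr.kae w1 ht hs hr n2 ae (fun x hx => nrC_ne.1 (t0 x hx).ne') (f := f)
    (fun e he z hz hx => (loc e he z hz hx).1)
    (fun e he z hz hx => by
      beta_reduce
      rw [(loc e he z hz hx).2]
      exact Matrix.PosSemidef.zero) (by
      obtain ⟨u, u1, u2⟩ := X.ad.int
      have cκ : ContinuousOn X.κ (Oz X.p X.σ γ) := fun x hx => by
        have := ((X.ad.sk _ (ch_mem x) _ (ch_tgt x) (by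
          rw [ch_symm]; exact ⟨hx.1, hx.2.1⟩)).continuousAt.comp
            ((M.ch x).continuousAt (mem_ch x))).rexp
        refine (this.congr ?_).continuousWithinAt
        filter_upwards [(M.ch x).open_source.eventually_mem (mem_ch x), n2.1.eventually_mem hx]
          with y y1 y2
        simp only [Function.comp_apply, (M.ch x).left_inv y1]
        exact Real.exp_log (X.ad.k0 y ⟨y2.1, y2.2.1⟩)
      have i1 := (hI _ ((M.mu X.H).restrict (Oz X.p X.σ γ)) (fun x => ENNReal.ofReal (X.κ x)) u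
        (cκ.aemeasurable mO).ennreal_ofReal u1 (ne_top_of_le_ne_top u2 (le_trans
          (setLIntegral_mono' mO fun x hx => (ENNReal.ofReal_rpow_of_pos
            (X.ad.k0 x ⟨hx.1, hx.2.1⟩)).le) (lintegral_mono_set fun x hx => ⟨hx.1, hx.2.1⟩)))).1
      refine ne_top_of_le_ne_top (ENNReal.mul_ne_top (ENNReal.ofReal_ne_top (r := B + 1)) i1) ?_
      rw [← lintegral_const_mul' _ _ ENNReal.ofReal_ne_top]
      refine setLIntegral_mono' mO fun x hx => ?_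
      rw [← ENNReal.ofReal_mul (by positivity)]
      exact ENNReal.ofReal_le_ofReal (ef x hx).1)
    (a := fun i x => m * δ * a ((1 / 2) ^ i) x) (ε := fun i => m * δ * (1 / 2) ^ i)
    (fun i => mul_pos c0 (mi i).1) (by
      simpa only [mul_zero] using (tendsto_pow_atTop_nhds_zero_of_lt_one (r := (1 / 2 : ℝ))
        (by norm_num) (by norm_num)).const_mul (m * δ : ℝ))
    (fun i => ⟨(h1 _ (mi i)).sm.const_mul _, fun x => mul_nonpos_of_nonneg_of_nonpos c0.le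
      ((h1 _ (mi i)).np x), ((h1 _ (mi i)).kae.toMet.smul c0).nonneg.congr (fun _ _ _ _ => rfl)
        fun e he z hz => by
          simp only [Pi.add_apply, Pi.smul_apply, w3 e he z hz, smul_add, smul_smul,
            ((mLAP n M _ _ (h1 _ (mi i)).sm (h1 _ (mi i)).sm).1 (m * δ) e he z hz).2.2.2.1]⟩)
    (fun x _ => (l2 x).2.2) (by
      obtain ⟨C, hC⟩ := nu
      refine ⟨(m * δ) ^ n * C / (m * δ) ^ (n - d), fun c hc => ?_⟩
      rw [dq_congr (G' := X.H) (T' := (m * δ : ℝ) • (Θ + (c / (m * δ)) • X.H)) (fun _ _ _ _ => rfl)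
        fun e he z hz => by
          simp only [Pi.add_apply, Pi.smul_apply, w3 e he z hz, smul_add, smul_smul,
            mul_div_cancel₀ _ c0.ne']]
      simp only [dq_smul, integral_const_mul]
      refine (mul_le_mul_of_nonneg_left (hC _ ⟨div_pos hc.1 c0, (div_le_one c0).2
        (hc.2.trans c1)⟩) (by positivity)).trans_eq ?_
      rw [div_pow]
      ring) (Z := fun x => (X.z x, X.θ x)) fun F j hF iF => by
      obtain ⟨s₀, rem⟩ := X.fr.rem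
      obtain ⟨u, c, lo⟩ := X.ad.lo
      obtain ⟨F', f1, f2⟩ := rem γ tm nz (m * (j + 1)) u (fun x => F x * γ x ^ (j + 1))
        (fun e he z hz hx => ((hF e he z hz hx).and (q1 e he z hz hx.1)).mono fun w l =>
          l.1.mul (l.2.pow _)) (by
          refine ne_top_of_le_ne_top (ENNReal.mul_ne_top
            (ENNReal.ofReal_ne_top (r := |c| * (B + 1))) iF) ?_
          rw [Jo, Jo, ← lintegral_const_mul' _ _ ENNReal.ofReal_ne_top]
          refine setLIntegral_mono' mO fun x hx => ?_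
          rw [← ENNReal.ofReal_mul (by positivity), map_mul, map_pow, pow_mul, mul_assoc,
            ← mul_assoc (_ ^ _), ← mul_pow, ← q3 x hx.1, pow_succ]
          refine ENNReal.ofReal_le_ofReal ?_
          have b1 := (lo x ⟨hx.1, hx.2.1⟩).trans (mul_le_mul_of_nonneg_right (le_abs_self c)
            (X.ad.k0 x ⟨hx.1, hx.2.1⟩).le)
          have b2 := (mul_le_mul_of_nonneg_right b1 (t0 x hx).le).trans ((mul_assoc _ _ _).trans_le
            (mul_le_mul_of_nonneg_left (ef x hx).2 (abs_nonneg c)))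
          refine le_of_eq_of_le ?_ ((mul_le_mul_of_nonneg_left b2 (mul_nonneg (normSq_nonneg (F x))
            (pow_nonneg (t0 x hx).le j))).trans_eq ?_) <;> ring)
      obtain ⟨g₁, hg₁⟩ := fn _ _ _ f1
      refine ⟨fun y => g₁ y / g₀ y ^ (j + 1), ?_⟩
      filter_upwards [ae, hg₀, hg₁] with x x1 x2 x3
      rw [← x2, ← x3, f2 x x1, mul_div_cancel_right₀ _ (pow_ne_zero _ x1.2.2)]
  have key : ∀ᵐ x ∂M.mu X.H, X.T x * (g (X.z x, X.θ x) * normSq (g₀ (X.z x, X.θ x))) ^ (m : ℝ)⁻¹ =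
      Λ x ^ (m : ℝ)⁻¹ := by
    filter_upwards [ae, hg, hg₀] with x x1 x2 x3
    have p := pow_pos (k3 x x1.1) m
    rw [← x3, show g (X.z x, X.θ x) * normSq (γ x) = Λ x / X.T x ^ m by
      rw [x2, q3 x x1.1, ← mul_assoc, mul_div_cancel_right₀ _ p.ne'], Real.div_rpow (l2 x).1 p.le,
      Real.pow_rpow_inv_natCast (k3 x x1.1).le m0.ne', mul_div_cancel₀ _ (k3 x x1.1).ne']
  obtain ⟨A, hA⟩ := X.ro.r3 (fun y => ENNReal.ofReal ((g y * normSq (g₀ y)) ^ (m : ℝ)⁻¹)) (by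
    filter_upwards [key, k4] with x x1 x2
    rw [← ENNReal.ofReal_mul (k3 x x2.1).le, x1]
    exact ENNReal.ofReal_le_one.2 (Real.rpow_le_one (l2 x).1 (l2 x).2.1 (by positivity)))
  refine ⟨Λ, l1, fun x => (l2 x).1, l3, |A| + 1, by positivity, ?_⟩
  filter_upwards [key, k4, hA, (k7 _ (X.ro.tb 0).1 (X.ro.tb 0).2).1] with x x1 x2 x3 x4
  have p := k3 x x2.1
  have a0 : 0 ≤ nsq (X.a · x) := Finset.sum_nonneg fun _ _ => normSq_nonneg _
  have b0 : 0 < nsq (X.b · x) := (normSq_pos.2 x4).trans_le (Finset.single_le_sum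
    (f := fun i => normSq (X.b i x)) (fun _ _ => normSq_nonneg _) (Finset.mem_univ 0))
  have y0 := (mul_nonneg_iff_of_pos_left p).1 (x1 ▸ Real.rpow_nonneg (l2 x).1 _)
  rw [← ENNReal.ofReal_pow y0, ← ENNReal.ofReal_mul (pow_nonneg y0 _)] at x3
  have y1 := (ENNReal.ofReal_le_ofReal_iff (by positivity)).1 (x3.trans (ENNReal.ofReal_le_ofReal
    (mul_le_mul_of_nonneg_right ((le_abs_self A).trans (le_add_of_nonneg_right zero_le_one)) a0)))
  have y2 : Λ x ≤ Λ x ^ (m : ℝ)⁻¹ := Real.self_le_rpow_of_le_one (l2 x).1 (l2 x).2.1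
    (inv_le_one_of_one_le₀ (by exact_mod_cast m0))
  refine (pow_le_pow_left₀ (l2 x).1 (y2.trans_eq x1.symm) _).trans ?_
  rw [mul_pow, mul_left_comm, KJ.tq, ← mul_div_assoc]
  exact mul_le_mul_of_nonneg_left ((le_div_iff₀ b0).2 y1) (pow_pos p _).le

/-- No common zero. -/
theorem semi [M.Cpt] (hH : M.Met H) (wt : M.WtC L ψ) {T R Λ : M.X → ℝ} {W : M.X → ℝ≥0∞}
    {N N' r : ℕ} {A c : ℝ} {σ : Fin r → M.X → ℂ} {s : Fin r → M.Fam ℂ} (mΛ : Measurable Λ)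
    (Λ0 : ∀ x, 0 ≤ Λ x) (iΛ : ∀ t : ℕ, ∫⁻ x, (ENNReal.ofReal (Λ x))⁻¹ ^ t ∂M.mu H ≠ ⊤)
    (A0 : 0 < A) (lo : ∀ᵐ x ∂M.mu H, Λ x ^ N ≤ A * (T x ^ N * R x))
    (hs : ∀ l, M.HSecC (L.pw (N * N')) (s l)) (ev : ∀ᵐ x ∂M.mu H, 0 < T x ∧ T x = M.nrC ψ τ x ∧
      0 < nsq (σ · x) ∧ ∀ l, M.ev (s l) x = σ l x * M.ev τ x ^ (N * N'))
    (c0 : 0 < c) (mW : AEMeasurable W (M.mu H)) (iW : ∫⁻ x, W x ^ (-c) ∂M.mu H ≠ ⊤)
    (mom : ∀ t : ℕ, ∫⁻ x, W x * ENNReal.ofReal ((R x ^ N' / nsq (σ · x)) ^ t) ∂M.mu H ≠ ⊤) (x : M.X) :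
    ∃ l, M.ev (s l) x ≠ 0 := by
  have := nozero (u := fun x => ENNReal.ofReal (Λ x) ^ (N * N')) hH c0
    (Sm.sum (s := Finset.univ) fun l _ => (wt.pw (N * N')).1.nr_sm (hs l).toSecC) mW
    (mΛ.ennreal_ofReal.pow_const _).aemeasurable iW
    (fun t => by simpa only [ENNReal.inv_pow, ← pow_mul] using iΛ (N * N' * t)) (fun t => by
      refine ne_top_of_le_ne_top (ENNReal.mul_ne_top
        (ENNReal.ofReal_ne_top (r := (A ^ N') ^ t)) (mom t)) ?_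
      rw [← lintegral_const_mul' _ _ ENNReal.ofReal_ne_top]
      refine lintegral_mono_ae ?_
      filter_upwards [lo, ev] with y y1 ⟨y2, y3, y4, y5⟩
      have e : ∑ l, M.nrC (((N * N' : ℕ) : ℝ) • ψ) (s l) y = nsq (σ · y) * T y ^ (N * N') := by
        rw [y3, nsq, Finset.sum_mul]
        exact Finset.sum_congr rfl fun l _ => nr_mul (y5 l)
      have l0 := Λ0 y
      have b : Λ y ^ (N * N') / (nsq (σ · y) * T y ^ (N * N')) ≤
          A ^ N' * (R y ^ N' / nsq (σ · y)) := by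
        rw [div_le_iff₀ (by positivity), pow_mul, pow_mul]
        refine (pow_le_pow_left₀ (by positivity) y1 _).trans_eq ?_
        rw [mul_pow, mul_pow]
        field_simp
      rw [mul_left_comm, ← ENNReal.ofReal_mul (by positivity), ← mul_pow, e,
        ← ENNReal.ofReal_pow l0, ← ENNReal.ofReal_div_of_pos (by positivity),
        ← ENNReal.ofReal_pow (by positivity)]
      exact mul_le_mul_right (ENNReal.ofReal_le_ofReal (pow_le_pow_left₀ (by positivity) b _)) _) x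
  obtain ⟨l, -, hl⟩ := Finset.exists_ne_zero_of_sum_ne_zero this
  exact ⟨l, nrC_ne.1 hl⟩

end Pool.Agent.Lib.K5
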