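import Pool.Agent.Lib.SIE.Main
import Pool.Agent.Lib.KP.Defs

/-! Project k5: many sections give a map of large rank. -/

open scoped Classical Topology
open Set Filter Metric Asymptotics

noncomputable section

namespace Pool.Agent.Lib.K5

open Pool.Agent.Lib.SV (E)
open Pool.Agent.Lib.HS32 Pool.Agent.Lib.HS32.Mf Pool.Agent.Lib.SIE

/-- A relation that vanishes to a high order at finitely many centres. -/
theorem jetc {n k m : ℕ} {A ι : Type} [Fintype A] [Fintype ι] (z : A → E n → E k)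
    (f : ι → A → E n → ℂ) (c : A → E n) (hz : ∀ a, HolN (z a) (c a))
    (hf : ∀ i a, HolN (f i a) (c a)) (hs : ∀ a, Function.Surjective (fderiv ℂ (z a) (c a)))
    (hk : ∀ i a, ∀ᶠ x in 𝓝 (c a), ∀ v, fderiv ℂ (z a) x v = 0 → fderiv ℂ (f i a) x v = 0)
    (hc : Fintype.card A * (m + 1) ^ k < Fintype.card ι) : ∃ u : ι → ℂ, (∃ i, u i ≠ 0) ∧
      ∀ a, (fun x => ∑ i, u i * f i a x) =O[𝓝 (c a)] fun x => ‖x - c a‖ ^ (m + 1) := by
  choose g hg hfg using fun a i => SG45.jet (hz a) (hf i a) (hs a) (hk i a)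
  choose L _ hL hb using fun a => SV.stJET SV.stSMO k (m + 1) (z a (c a))
  have hn : ¬ LinearIndependent ℂ fun i (a : A) => L a (g a i) := fun h => by
    have h1 := h.fintype_card_le_finrank
    simp [Module.finrank_pi_fintype] at h1
    omega
  obtain ⟨u, hu, hi⟩ := Fintype.not_linearIndependent_iff.1 hn
  refine ⟨u, hi, fun a => ?_⟩
  obtain ⟨aF, hF⟩ := SG45.lam_sum (hL a) u (hg a) Finset.univ
  have h0 : L a (∑ i, u i • g a i) = 0 := by
    rw [hF]
    simpa using congrFun hu a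
  obtain ⟨R, hR, hB⟩ := Metric.eventually_nhds_iff_ball.1
    ((aF.eventually_analyticAt.mono fun _ h => h.differentiableAt).and
      (aF.continuousAt.norm.eventually (ge_mem_nhds (lt_add_one _))))
  have h2 := hb a _ R _ (fun w hw => (hB w hw).1.differentiableWithinAt)
    (fun w hw => (hB w hw).2) h0
  have h3 : (∑ i, u i • g a i) =O[𝓝 (z a (c a))] fun w => ‖w - z a (c a)‖ ^ (m + 1) := by
    refine IsBigO.of_bound (2 * (‖(∑ i, u i • g a i) (z a (c a))‖ + 1) / R ^ (m + 1)) ?_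
    filter_upwards [ball_mem_nhds _ hR] with w hw
    refine (h2 w hw).trans_eq ?_
    rw [div_pow, Real.norm_of_nonneg (by positivity)]
    ring
  have dz := (hz a).self_of_nhds
  refine ((h3.comp_tendsto dz.continuousAt.tendsto).trans
    (dz.isBigO_sub.norm_norm.pow (m + 1))).congr' ?_ EventuallyEq.rfl
  filter_upwards [eventually_all.2 (hfg a)] with x hx
  simp only [Function.comp_apply, Finset.sum_apply, Pi.smul_apply, smul_eq_mul, hx]

variable {n k : ℕ} {M : Mf n} {L : M.Co} {s t : M.Fam ℂ} {e e' : M.Ch} {x : M.X}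

theorem evC (h : M.HSecC L s) (he : e ∈ M.C) (hx : x ∈ e.source) :
    s e (e x) = M.ev s x * L.c (M.ch x) e x := h.cmp _ (ch_mem x) e he x (mem_ch x) hx

theorem neC (h : M.HSecC L s) (he : e ∈ M.C) (hx : x ∈ e.source) :
    s e (e x) ≠ 0 ↔ M.ev s x ≠ 0 := by
  rw [evC h he hx, mul_ne_zero_iff_right (L.ne _ (ch_mem x) e he x (mem_ch x) hx)]

/-- The quotient of two sections. -/
def rt (s t : M.Fam ℂ) (y : M.X) : ℂ := M.ev s y / M.ev t y

theorem rtC (h : M.HSecC L s) (h' : M.HSecC L t) : M.Rep (rt s t) fun e z => s e z / t e z :=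
  allOn_of_source fun e he x hx => by
    beta_reduce
    rw [e.left_inv hx, evC h he hx, evC h' he hx,
      mul_div_mul_right _ _ (L.ne _ (ch_mem x) e he x (mem_ch x) hx), rt]

theorem ctC (L : M.Co) : M.Ov fun e e' x => ContinuousAt (L.c e e') x := fun e he e' he' x hx hx' =>
  ((L.hol e he e' he' x hx hx').self_of_nhds.continuousAt.comp (e'.continuousAt hx')).congr
    ((e'.open_source.eventually_mem hx').mono fun y hy => by
      simp only [Function.comp, e'.left_inv hy])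

theorem dnC (h : M.HSecC L s) : Dn M fun e z (_ : Unit) => s e z := by
  refine ⟨fun e he z hz => (h.hol.ev he hz).mono fun w l => differentiableAt_pi.2 fun _ => l,
    fun e he e' he' x hx hx' => ⟨‖L.c e' e x‖ + 1, ?_⟩⟩
  filter_upwards [(ctC L e' he' e he x hx' hx).norm.eventually_lt continuousAt_const (lt_add_one _),
    e.open_source.eventually_mem hx, e'.open_source.eventually_mem hx'] with y h1 h2 h3
  rw [pi_norm_const, pi_norm_const, h.cmp e' he' e he y h3 h2, norm_mul, mul_comm]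
  exact mul_le_mul_of_nonneg_right h1.le (norm_nonneg _)

theorem ooC (h : M.HSecC L s) : (Oo M fun e z (_ : Unit) => s e z) = {x | M.ev s x ≠ 0} :=
  Set.ext fun x => ⟨fun l k => l _ (ch_mem x) (mem_ch x) (funext fun _ => k),
    fun l _ he hx k => (neC h he hx).2 l (congrFun k ())⟩

theorem opC (h : M.HSecC L s) : IsOpen {x | M.ev s x ≠ 0} := ooC h ▸ (dnC h).opn

theorem deC [M.Cpt] (h : M.HSecC L s) (h0 : ∃ x, M.ev s x ≠ 0) : Dense {x | M.ev s x ≠ 0} :=
  ooC h ▸ (dnC h).dense (ooC h ▸ h0)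

theorem mrC (h : M.HSecC L s) (h' : M.HSecC L t) (h0 : ∃ x, M.ev t x ≠ 0) : Mr M (rt s t) :=
  ⟨Unit, inferInstance, _, fun e z _ => s e z, dnC h', ooC h' ▸ h0, fun e he z hz =>
    ⟨(dnC h).hol e he z hz, fun l => funext fun _ => by
      rw [Pi.smul_apply, rtC h h' e he z hz, smul_eq_mul,
        div_mul_cancel₀ _ fun k => l (funext fun _ => k)]⟩⟩

theorem hoC (h : M.HSecC L s) (h' : M.HSecC L t) (he : e ∈ M.C) {w : E n} (hw : w ∈ e.target)
    (h0 : M.ev t (e.symm w) ≠ 0) : HolN (fun v => rt s t (e.symm v)) w := by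
  have l := (neC h' he (e.map_target hw)).2 h0
  rw [e.right_inv hw] at l
  filter_upwards [h.hol.ev he hw, h'.hol.ev he hw, ((rtC h h').ev he hw).eventually_nhds,
    (h'.hol e he w hw).continuousAt.eventually_ne l] with v h1 h2 h3 h4
  exact (h1.fun_mul (h2.fun_inv h4)).congr_of_eventuallyEq
    (h3.mono fun u q => q.trans (div_eq_mul_inv _ _))

/-- The count of Siegel. -/
theorem cntC [M.Cpt] (L : M.Co) {z : Fin k → M.X → ℂ} (hR : Dense {x | Rk M z x}) : ∃ A : ℕ,
    ∀ (j m : ℕ) (s : Fin m → M.Fam ℂ), (∀ a, M.HSecC (L.pw j) (s a)) →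
      (LinearIndependent ℂ fun a => M.ev (s a)) →
      (∀ a b x, ¬Rk M (Fin.cons (rt (s a) (s b)) z) x) → m ≤ A * (j + 1) ^ k := by
  obtain ⟨V⟩ := exists_cv M
  have : ∀ ab : Fin V.r × Fin V.r, ∃ C, ∀ x ∈ V.K ab.1 ∩ V.K ab.2,
      ‖L.c (V.e ab.2) (V.e ab.1) x‖ ≤ C := fun ab =>
    ((V.cpt ab.1).inter_right (V.cpt ab.2).isClosed).exists_bound_of_continuousOn fun x hx =>
      (ctC L _ (V.mem _) _ (V.mem _) x (V.src hx.2) (V.src hx.1)).continuousWithinAt
  choose C hC using this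
  obtain ⟨p, hp⟩ := pow_unbounded_of_one_lt (∑ ab, |C ab|) (one_lt_two (α := ℝ))
  refine ⟨V.r * (p + 1) ^ k, fun j m s hs li mx => le_of_not_gt fun hm => ?_⟩
  let b₀ : Fin m := ⟨0, (Nat.zero_le _).trans_lt hm⟩
  have o1 := opC (hs b₀)
  have o2 := deC (hs b₀) (Function.ne_iff.1 (li.ne_zero b₀))
  have ct : ∀ b, V.c b ∈ (V.e b).target := fun b =>
    V.sub b (mem_closedBall_self (by linarith [V.pos b]))
  choose w hw using fun b => (((fr_dense (hR.inter_of_isOpen_right o2 o1) (ct b)).and_eventually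
    (ball_mem_nhds _ (half_pos (V.pos b)))).and_eventually
      ((V.e b).open_target.eventually_mem (ct b))).exists
  have rk := fun b => (hw b).1.1.1 _ (V.mem b) ((V.e b).map_target (hw b).2)
  simp only [fun b => (V.e b).right_inv (hw b).2] at rk
  have nb : ∀ b, ∀ᶠ u in 𝓝 (w b), u ∈ (V.e b).target ∧
      (V.e b).symm u ∈ {x | Rk M z x} ∩ {x | M.ev (s b₀) x ≠ 0} :=
    fun b => ((V.e b).open_target.eventually_mem (hw b).2).and
      (((V.e b).continuousAt_symm (hw b).2).eventually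
        ((rk_open.inter o1).eventually_mem (hw b).1.1))
  obtain ⟨u, ⟨i0, hi⟩, hu⟩ := jetc (m := p * j) (fun b => rd M z (V.e b))
    (fun a b v => rt (s a) (s b₀) ((V.e b).symm v)) w (fun b => (rk b).1)
    (fun a b => hoC (hs a) (hs b₀) (V.mem b) (hw b).2 (hw b).1.1.2) (fun b => (rk b).2)
    (fun a b => (nb b).mono fun u l => ker_of (mx a b₀) (V.mem b) l.1 l.2.1
      (hoC (hs a) (hs b₀) (V.mem b) l.1 l.2.2)) (by
        rw [Fintype.card_fin, Fintype.card_fin]
        refine lt_of_le_of_lt ?_ hm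
        rw [mul_assoc, ← mul_pow]
        exact Nat.mul_le_mul_left _ (Nat.pow_le_pow_left (by nlinarith) _))
  have cm : M.Ov fun e e' x => ∑ a, u a * s a e' (e' x) = (∑ a, u a * s a e (e x)) *
      L.c e e' x ^ j := fun e he e' he' x hx hx' => by
    beta_reduce
    rw [Finset.sum_mul]
    exact Finset.sum_congr rfl fun a _ => by
      rw [(hs a).cmp e he e' he' x hx hx', mul_assoc]
      rfl
  have z0 := sch V (O := univ) dense_univ (H := fun b v => ∑ a, u a * s a (V.e b) v)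
    (fun b v hv => (eventually_all.2 fun a => (hs a).hol.ev (V.mem b) hv).mono fun y l =>
      DifferentiableAt.fun_sum fun a _ => (l a).const_mul _) (m := p * j) (c := w)
    (fun b b' x _ h1 h2 => by
      rw [cm _ (V.mem b') _ (V.mem b) x (V.src h2) (V.src h1), norm_mul, norm_pow, mul_comm, pow_mul]
      exact mul_le_mul_of_nonneg_right (pow_le_pow_left₀ (norm_nonneg _) ((hC (b, b') x
        ⟨h1, h2⟩).trans ((le_abs_self _).trans ((Finset.single_le_sum (fun a _ => abs_nonneg (C a))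
          (Finset.mem_univ _)).trans hp.le))) _) (norm_nonneg _)) (fun b => (hw b).1.2) fun b => by
    refine ((hu b).mul (((hs b₀).hol _ (V.mem b) _ (hw b).2).continuousAt.tendsto.isBigO_one
      ℝ)).congr' ?_ (Eventually.of_forall fun u => mul_one _)
    filter_upwards [nb b] with v l
    have q := (neC (hs b₀) (V.mem b) ((V.e b).map_target l.1)).2 l.2.2
    rw [(V.e b).right_inv l.1] at q
    rw [Finset.sum_mul]
    exact Finset.sum_congr rfl fun a _ => by
      rw [rtC (hs a) (hs b₀) _ (V.mem b) v l.1, mul_assoc, div_mul_cancel₀ _ q]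
  refine hi (Fintype.linearIndependent_iff.1 li u (funext fun x => ?_) i0)
  obtain ⟨b, b1, b2⟩ := V.cov x
  have := cm _ (V.mem b) _ (ch_mem x) x b1 (mem_ch x)
  beta_reduce at this
  rw [show ∑ a, u a * s a (V.e b) (V.e b x) = 0 from z0 b _ b2, zero_mul] at this
  rw [Finset.sum_apply]
  exact this

theorem prC {ι : Type} (S : Finset ι) {j : ι → ℕ} {s : ι → M.Fam ℂ}
    (h : ∀ i ∈ S, M.HSecC (L.pw (j i)) (s i)) :
    M.HSecC (L.pw (∑ i ∈ S, j i)) fun e z => ∏ i ∈ S, s i e z :=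
  ⟨⟨fun e he z hz => contDiffAt_prod fun i hi => (h i hi).sm e he z hz,
    fun e he e' he' x hx hx' => by
      beta_reduce
      rw [Finset.prod_congr rfl fun i hi => (h i hi).cmp e he e' he' x hx hx',
        Finset.prod_mul_distrib]
      exact congrArg _ (Finset.prod_pow_eq_pow_sum _ _ _)⟩,
    fun e he z hz => (HasFDerivAt.finsetProd fun i hi =>
      ((h i hi).hol e he z hz).hasFDerivAt).differentiableAt⟩

theorem rk_sub {d : ℕ} {z : Fin k → M.X → ℂ} {z' : Fin d → M.X → ℂ} {φ : Fin d → Fin k}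
    (hφ : Function.Injective φ) (h : Rk M z x) (h' : ∀ᶠ y in 𝓝 x, ∀ i, z' i y = z (φ i) y) :
    Rk M z' x := fun e he hx => by
  obtain ⟨h1, h2⟩ := h e he hx
  let P : E k →L[ℂ] E d := ContinuousLinearMap.pi fun i => ContinuousLinearMap.proj (φ i)
  have q : rd M z' e =ᶠ[𝓝 (e x)] P ∘ rd M z e := ((up hx).1 h').mono fun w l => funext l
  refine ⟨?_, ?_⟩
  · filter_upwards [h1, q.eventually_nhds] with w l1 l2
    exact (P.differentiableAt.comp w l1).congr_of_eventuallyEq l2
  · rw [q.fderiv_eq, fderiv_comp _ P.differentiableAt h1.self_of_nhds, P.fderiv]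
    exact Function.Surjective.comp (g := P) (f := fderiv ℂ (rd M z e) (e x))
      (hφ.surjective_comp_right (γ := ℂ)) h2

/-- Growth of order `d` gives `d` quotients of sections with independent differentials. -/
theorem rnk [M.Cpt] (L : M.Co) {d C : ℕ} (h : {j : ℕ | 0 < j ∧ ∃ (m : ℕ) (s : Fin m → M.Fam ℂ),
    (j + 1) ^ d ≤ C * m ∧ (∀ a, M.HSecC (L.pw j) (s a)) ∧
      LinearIndependent ℂ fun a => M.ev (s a)}.Infinite) :
    ∃ m, 0 < m ∧ ∃ (t : M.Fam ℂ) (s : Fin d → M.Fam ℂ), M.HSecC (L.pw m) t ∧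
      (∀ i, M.HSecC (L.pw m) (s i)) ∧ (∃ x, M.ev t x ≠ 0) ∧
      Dense {x | Rk M (fun i => rt (s i) t) x} := by
  obtain ⟨k, N, z, -, z1, z2, z3⟩ := fam (M := M) (S := {f | ∃ j s t, M.HSecC (L.pw j) s ∧
    M.HSecC (L.pw j) t ∧ (∃ x, M.ev t x ≠ 0) ∧ f = rt s t}) (by
      rintro _ ⟨j, s, t, h1, h2, h3, rfl⟩
      exact mrC h1 h2 h3)
  obtain ⟨A, hA⟩ := cntC L z2
  have dk : d ≤ k := le_of_not_gt fun l => by
    obtain ⟨j, ⟨-, m, s, h1, h2, h3⟩, h4⟩ := h.exists_gt (C * A)
    have q := hA j m s h2 h3 fun a b => (z3 _ ⟨j, _, _, h2 a, h2 b,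
      Function.ne_iff.1 (h3.ne_zero b), rfl⟩).1
    have q1 : (j + 1) ^ k * (j + 1) ≤ (j + 1) ^ k * (C * A) :=
      calc _ ≤ (j + 1) ^ d := (pow_succ _ _).ge.trans (Nat.pow_le_pow_right j.succ_pos l)
        _ ≤ C * (A * (j + 1) ^ k) := h1.trans (Nat.mul_le_mul_left _ q)
        _ = _ := by ring
    have := Nat.le_of_mul_le_mul_left q1 (by positivity)
    omega
  obtain ⟨j₀, j0, m, s₀, h1, h2, h3⟩ := h.nonempty
  have m0 : 0 < m := Nat.pos_of_ne_zero fun l => by
    rw [l, mul_zero] at h1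
    exact (pow_pos j₀.succ_pos d).not_ge h1
  choose j a b ha hb hn hz using z1
  let J : Option (Fin k) → ℕ := fun o => o.elim j₀ j
  let B : Option (Fin k) → M.Fam ℂ := fun o => o.elim (s₀ ⟨0, m0⟩) b
  have hB : ∀ o, M.HSecC (L.pw (J o)) (B o) := fun o => by
    cases o
    exacts [h2 _, hb _]
  have nB : ∀ o, ∃ x, M.ev (B o) x ≠ 0 := fun o => by
    cases o
    exacts [Function.ne_iff.1 (h3.ne_zero _), hn _]
  have oo : ∀ t ∈ range fun o => {x | M.ev (B o) x ≠ 0}, IsOpen t := by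
    rintro _ ⟨o, rfl⟩
    exact opC (hB o)
  have o1 := (finite_range _).isOpen_sInter oo
  have o2 := (finite_range _).dense_sInter oo (by
    rintro _ ⟨o, rfl⟩
    exact deC (hB o) (nB o))
  let B' := fun i : Fin d => Function.update B (some (i.castLE dk)) (a (i.castLE dk))
  refine ⟨∑ o, J o, j0.trans_le (Finset.single_le_sum (f := J) (fun _ _ => Nat.zero_le _)
    (Finset.mem_univ none)), _, fun i e w => ∏ o, B' i o e w, prC _ fun o _ => hB o,
    fun i => prC _ fun o _ => ?_, ?_, (z2.inter_of_isOpen_right o2 o1).mono fun x hx => ?_⟩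
  · by_cases l : o = some (i.castLE dk)
    · subst l
      simp only [B', Function.update_self]
      exact ha _
    · simpa only [B', Function.update_of_ne l] using hB o
  · obtain ⟨x, hx⟩ := o2.nonempty
    exact ⟨x, Finset.prod_ne_zero_iff.2 fun o _ => hx _ ⟨o, rfl⟩⟩
  refine rk_sub (Fin.castLE_injective dk) hx.1 ((o1.eventually_mem hx.2).mono fun y hy i => ?_)
  have l : ∏ o ∈ Finset.univ.erase (some (i.castLE dk)), M.ev (B o) y ≠ 0 :=
    Finset.prod_ne_zero_iff.2 fun o _ => hy _ ⟨o, rfl⟩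
  rw [hz, rt, rt, ← mul_div_mul_right (M.ev (a _) y) _ l]
  refine congrArg₂ _ ?_ (Finset.mul_prod_erase _ (fun o => M.ev (B o) y)
    (Finset.mem_univ (some (i.castLE dk)))).symm
  refine (Finset.mul_prod_erase _ (fun o => M.ev (B' i o) y)
    (Finset.mem_univ (some (i.castLE dk)))).symm.trans (congrArg₂ _ ?_
      (Finset.prod_congr rfl fun o ho => ?_))
  · simp only [B', Function.update_self]
  · simp only [B', Function.update_of_ne (Finset.ne_of_mem_erase ho)]

end Pool.Agent.Lib.K5
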