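import Pool.Agent.Lib.K5.Rnk
import Pool.Agent.Lib.K5F.Fun
import Pool.Agent.Lib.K5F.Det
import Pool.Agent.Lib.SV.B_ZER
import Pool.Agent.Lib.SV.B_SUB

/-! Project k5: the limit potential is a function on the base times the norm of a section. -/

open scoped Classical Topology ContDiff ENNReal ComplexOrder
open Set MeasureTheory Complex Filter Metric

noncomputable section

namespace Pool.Agent.Lib.K5

open Pool.Agent.Lib.SV (E)
open Pool.Agent.Lib.HS32 Pool.Agent.Lib.HS32.Mf Pool.Agent.Lib.SIE Pool.Agent.Lib.KH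
open Pool.Agent.Lib.K5F (sn)

variable {n d : ℕ} {M : Mf n} {L : M.Co} {H : M.Fam (Mat n)} {φ : M.Fam ℝ} {t : M.Fam ℂ}
  {s : Fin d → M.Fam ℂ} {O : Set M.X}

theorem ae_loc [M.Cpt] (hH : M.Met H) {p : M.X → Prop} (h : ∀ e ∈ M.C, ∀ z r, 0 < r →
    ball z r ⊆ e.target → ∃ g : E n → ℂ, DifferentiableOn ℂ g (ball z r) ∧
      (∃ w ∈ ball z r, g w ≠ 0) ∧ ∀ w ∈ ball z r, g w ≠ 0 → p (e.symm w)) :
    ∀ᵐ x ∂M.mu H, p x := by
  have : SecondCountableTopology M.X := (mCOV n M).1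
  refine measure_null_of_locally_null _ fun x _ => ?_
  obtain ⟨r, r0, hr⟩ := Metric.isOpen_iff.1 (M.ch x).open_target _ (ch_tgt x)
  obtain ⟨g, g1, g2, g3⟩ := h _ (ch_mem x) _ r r0 hr
  have m : MeasurableSet {w | w ∈ ball (M.ch x x) r ∧ g w = 0} := by
    rw [show {w | w ∈ ball (M.ch x x) r ∧ g w = 0} = ball (M.ch x x) r \ (ball (M.ch x x) r ∩
      g ⁻¹' {y | y ≠ 0}) from Set.ext fun w => ⟨fun l => ⟨l.1, fun k => k.2 l.2⟩,
        fun l => ⟨l.1, not_not.1 fun k => l.2 ⟨l.1, k⟩⟩⟩]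
    exact measurableSet_ball.diff
      (g1.continuousOn.isOpen_inter_preimage isOpen_ball isOpen_ne).measurableSet
  refine ⟨(M.ch x).symm '' {w | w ∈ ball (M.ch x x) r ∧ g w = 0}, ?_, ?_⟩
  · filter_upwards [self_mem_nhdsWithin, mem_nhdsWithin_of_mem_nhds
      (((M.ch x).open_source.eventually_mem (mem_ch x)).and
        (((M.ch x).continuousAt (mem_ch x)).eventually (ball_mem_nhds _ r0)))] with y y1 y2
    exact ⟨_, ⟨y2.2, not_not.1 fun k => y1 ((M.ch x).left_inv y2.1 ▸ g3 _ y2.2 k)⟩,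
      (M.ch x).left_inv y2.1⟩
  · rw [← setLIntegral_one, ((mMU n M H hH).2.2.2.2.2.1 _ (ch_mem x) _ m fun w l => hr l.1).2.1]
    exact setLIntegral_measure_zero _ _ (SV.stZER SV.stSUB n g _ r g1 g2)

/-- The quotients are a submersion almost everywhere. -/
theorem rk_ae [M.Cpt] (hH : M.Met H) (ht : M.HSecC L t) (hs : ∀ i, M.HSecC L (s i))
    (h0 : ∃ x, M.ev t x ≠ 0) (hr : Dense {x | Rk M (fun i => rt (s i) t) x}) :
    ∀ᵐ x ∂M.mu H, Rk M (fun i => rt (s i) t) x := by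
  refine ae_loc hH fun e he z r r0 hb => ?_
  let N : (Fin d → E n) → E n → Matrix (Fin d) (Fin d) ℂ := fun v u => Matrix.of fun j a =>
    t e u * fderiv ℂ (s j e) u (v a) - s j e u * fderiv ℂ (t e) u (v a)
  have key : ∀ u ∈ e.target, t e u ≠ 0 → HolN (rd M (fun i => rt (s i) t) e) u ∧ ∀ v, (N v u).det =
      (∏ _j : Fin d, t e u ^ 2) *
        (Matrix.of fun j a => fderiv ℂ (rd M (fun i => rt (s i) t) e) u (v a) j).det := by
    intro u hu hb
    have h1 := fun j => hoC (hs j) ht he hu ((neC ht he (e.map_target hu)).1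
      (by rwa [e.right_inv hu]))
    have h2 : HolN (rd M (fun i => rt (s i) t) e) u :=
      (eventually_all.2 h1).mono fun y l => differentiableAt_pi.2 l
    refine ⟨h2, fun v => ?_⟩
    rw [← Matrix.det_mul_column]
    refine congrArg _ (Matrix.ext fun j a => ?_)
    have q : s j e =ᶠ[𝓝 u] fun y => rt (s j) t (e.symm y) * t e y := by
      filter_upwards [(rtC (hs j) ht).ev he hu, (ht.hol e he u hu).continuousAt.eventually_ne hb]
        with y l1 l2
      exact (div_mul_cancel₀ _ l2).symm.trans (congrArg (· * t e y) l1.symm)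
    have r : fderiv ℂ (rd M (fun i => rt (s i) t) e) u (v a) j =
        fderiv ℂ (fun y => rt (s j) t (e.symm y)) u (v a) := fd_i h2 _ _
    simp only [N, Matrix.of_apply]
    rw [r, q.fderiv_eq, fderiv_fun_mul (h1 j).self_of_nhds (ht.hol e he u hu), q.self_of_nhds]
    simp only [add_apply, smul_apply, smul_eq_mul]
    ring
  obtain ⟨y, ⟨y1, y2⟩, y3⟩ := ((fr_dense (hr.inter_of_isOpen_right (deC ht h0) (opC ht))
    (hb (mem_ball_self r0))).and_eventually (ball_mem_nhds z r0)).exists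
  have y4 := (neC ht he (e.map_target (hb y3))).2 y2
  have y5 := (y1 e he (e.map_target (hb y3))).2
  rw [e.right_inv (hb y3)] at y4 y5
  obtain ⟨v, hv⟩ := (surj_iff _).1 y5
  refine ⟨fun u => t e u * (N v u).det, fun u hu => ((ht.hol e he u (hb hu)).fun_mul
    (hol_det fun j a => ?_).self_of_nhds).differentiableWithinAt, ⟨y, y3, mul_ne_zero y4 ?_⟩,
    fun u hu k => ?_⟩
  · filter_upwards [ht.holN e he u (hb hu), (hs j).holN e he u (hb hu),
      hol_fd (ht.holN e he u (hb hu)) (v a), hol_fd ((hs j).holN e he u (hb hu)) (v a)]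
      with y l1 l2 l3 l4
    exact (l1.fun_mul l4).fun_sub (l2.fun_mul l3)
  · rw [(key y (hb y3) y4).2]
    exact mul_ne_zero (Finset.prod_ne_zero_iff.2 fun _ _ => pow_ne_zero 2 y4) hv
  · obtain ⟨k1, k2⟩ := key u (hb hu) (left_ne_zero_of_mul k)
    have k3 := right_ne_zero_of_mul k
    rw [k2] at k3
    refine rk_of he (e.map_target (hb hu)) ?_ ?_ <;> rw [e.right_inv (hb hu)]
    exacts [k1, (surj_iff _).2 ⟨v, right_ne_zero_of_mul k3⟩]

theorem nr_rt {u : M.Fam ℂ} {x : M.X} (h : M.ev t x ≠ 0) :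
    M.nrC φ u x = normSq (rt u t x) * M.nrC φ t x := by
  rw [nrC, nrC, rt, map_div₀, ← mul_assoc, div_mul_cancel₀ _ (normSq_pos.2 h).ne']

/-- The limit of the potentials, divided by the norm of the section, depends only on `Z`. -/
theorem dep [M.Cpt] (hH : M.Kae H) (hφ : M.WtC L φ) (ht : M.HSecC L t)
    (hs : ∀ i, M.HSecC L (s i)) (hr : Dense {x | Rk M (fun i => rt (s i) t) x})
    (hO : Cmp M H O) (ae : ∀ᵐ x ∂M.mu H, x ∈ O) (h0 : ∀ x ∈ O, M.ev t x ≠ 0) {f Λ : M.X → ℝ}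
    (sf : SmK M O f) (hf : OnK M O fun e z => (M.hs f e z + M.ric H e z).PosSemidef)
    (fin : Jo M H O (fun x => Real.exp (-f x)) ≠ ⊤) {a : ℕ → M.X → ℝ} {ε : ℕ → ℝ}
    (e0 : ∀ i, 0 < ε i) (el : Tendsto ε atTop (𝓝 0))
    (sa : ∀ i, M.Sm (a i) ∧ (∀ x, a i x ≤ 0) ∧ M.Le 0 (M.hw φ + ε i • H + M.hs (a i)))
    (lim : ∀ x ∈ O, Tendsto (fun i => Real.exp (a i x)) atTop (𝓝 (Λ x)))
    (nu : ∃ C : ℝ, ∀ c ∈ Ioc (0 : ℝ) 1, ∫ x, M.dq H (M.hw φ + c • H) x ∂M.mu H ≤ C * c ^ (n - d))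
    {Y : Type} {Z : M.X → Y} (hZ : ∀ (F : M.X → ℂ) (m : ℕ), HoK M O F →
      Jo M H O (fun x => normSq (F x) * (M.nrC φ t x ^ m * Real.exp (-f x))) ≠ ⊤ →
      ∃ g : Y → ℂ, ∀ᵐ x ∂M.mu H, F x = g (Z x)) :
    ∃ g : Y → ℝ, ∀ᵐ x ∂M.mu H, Λ x = g (Z x) * M.nrC φ t x := by
  let σ : Option (Fin d) → M.Fam ℂ := fun o => o.elim t s
  let w : Option (Fin d) → M.X → ℂ := fun o => o.elim (fun _ => 1) fun i => rt (s i) t
  have hσ : ∀ o, M.HSecC L (σ o) := fun o => by
    cases o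
    exacts [ht, hs _]
  have ne : ∃ x, M.ev t x ≠ 0 := by
    have := (mMU n M H hH.toMet).2.2.1
    exact (Measure.dense_of_ae ae).nonempty.imp h0
  have hw : ∀ i, HoK M O (rt (s i) t) := fun i e he z hz k => hoC (hs i) ht he hz (h0 _ k)
  have hw' : ∀ o, HoK M O (w o) := fun o => by
    cases o
    exacts [fun _ _ _ _ _ => .of_forall fun _ => differentiableAt_const _, hw _]
  have w1 : ∀ x, 1 ≤ sn w x := fun x => le_trans (by simp [w])
    (Finset.single_le_sum (f := fun o => normSq (w o x)) (fun _ _ => normSq_nonneg _)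
      (Finset.mem_univ none))
  have eo : ∀ o, ∀ x ∈ O, M.nrC φ (σ o) x = normSq (w o x) * M.nrC φ t x := fun o x hx => by
    cases o
    exacts [by simp [σ, w], nr_rt (h0 x hx)]
  have eS : ∀ x ∈ O, ∑ o, M.nrC φ (σ o) x = sn w x * M.nrC φ t x := fun x hx => by
    rw [sn, Finset.sum_mul]
    exact Finset.sum_congr rfl fun o _ => eo o x hx
  have t0 : ∀ x ∈ O, 0 < M.nrC φ t x := fun x hx =>
    (nrC_nonneg _ _ _).lt_of_ne' (nrC_ne.2 (h0 x hx))
  obtain ⟨g, hg⟩ := K5F.Dt.main ⟨H, M.hw φ, O, fun x => ∑ o, M.nrC φ (σ o) x, f, Λ, w, a, ε, n - d,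
    hH, hφ.clo, hO, ae, Sm.sum fun o _ => hφ.nr_sm (hσ o).toSecC,
    fun x => Finset.sum_nonneg fun o _ => nrC_nonneg _ _ _, hw',
    fun x hx => ⟨(eS x hx).symm ▸ mul_pos (one_pos.trans_le (w1 x)) (t0 x hx), w1 x⟩,
    fun e he z hz k => by
      have n0 := (neC ht he (e.map_target hz)).2 (h0 _ k)
      rw [e.right_inv hz] at n0
      obtain ⟨a1, a2, -⟩ := ((mHOL n _ z).2.2 (ht.holN e he z hz)).2.2.2 n0
      have a3 : ContDiffAt ℝ ∞ (fun u => Real.log (sn w (e.symm u))) z :=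
        (ContDiffAt.sum fun o _ => cd_normSq ((mHOL n _ z).2.2 (hw' o e he z hz k)).1).log
          (one_pos.trans_le (w1 _)).ne'
      have e1 : M.lc (fun x => Real.log (∑ o, M.nrC φ (σ o) x)) e =ᶠ[𝓝 z] fun u =>
          ((Real.log (sn w (e.symm u)) : ℝ) : ℂ) +
            (((Real.log (normSq (t e u)) : ℝ) : ℂ) - (φ e u : ℂ)) := by
        filter_upwards [(hφ.nr_rep ht.toSecC).ev he hz,
          (e.continuousAt_symm hz).eventually (hO.1.mem_nhds k),
          (ht.hol e he z hz).continuousAt.eventually_ne n0] with u u1 u2 u3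
        have u4 : M.nrC φ t (e.symm u) = _ := u1
        rw [lc, eS _ u2, Real.log_mul (one_pos.trans_le (w1 _)).ne' (t0 _ u2).ne', u4,
          Real.log_mul (normSq_pos.2 u3).ne' (Real.exp_pos _).ne', Real.log_exp]
        push_cast
        ring
      beta_reduce
      rw [Mf.hs, hess_congr e1, hess_add (cd_ofReal a3) ((cd_ofReal a1).sub (hφ.smC e he z hz)),
        hess_sub (cd_ofReal a1) (hφ.smC e he z hz), a2, zero_sub]
      exact neg_add_cancel_right _ _,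
    sf, hf, fin, e0, el, sa, lim, nu, by
      filter_upwards [ae, rk_ae hH.toMet ht hs ne hr] with x x1 x2
      exact K5F.det hH.toMet x1 hw x2⟩ Y Z fun F m hF k => hZ F m hF (by
        refine ne_of_eq_of_ne (setLIntegral_congr_fun hO.1.measurableSet fun x hx => ?_) k
        simp only [eS x hx, mul_div_cancel_left₀ _ (one_pos.trans_le (w1 x)).ne'])
  choose q hq using fun o => hZ (w o) 1 (hw' o) (by
    obtain ⟨C, C0, hC⟩ := (hφ.nr_sm (hσ o).toSecC).exists_bound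
    refine ne_top_of_le_ne_top (ENNReal.mul_ne_top (ENNReal.ofReal_ne_top (r := C)) fin) ?_
    rw [Jo, Jo, ← lintegral_const_mul' _ _ ENNReal.ofReal_ne_top]
    refine setLIntegral_mono' hO.1.measurableSet fun x hx => ?_
    rw [← ENNReal.ofReal_mul C0.le, pow_one, ← mul_assoc, ← eo o x hx]
    exact ENNReal.ofReal_le_ofReal (mul_le_mul_of_nonneg_right ((le_abs_self _).trans (hC x))
      (Real.exp_pos _).le))
  refine ⟨fun y => g y * ∑ o, normSq (q o y), ?_⟩
  filter_upwards [hg, ae, ae_all_iff.2 hq] with x x1 x2 x3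
  refine x1.trans ?_
  simp only [eS x x2, sn, x3, mul_assoc]

end Pool.Agent.Lib.K5
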