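import Pool.Agent.Lib.K5.Low
import Pool.Agent.Lib.KU.Defs

/-! Project k5: semi-ampleness from the trunk. -/

open scoped Classical Topology ENNReal
open Set MeasureTheory Complex Filter

noncomputable section

namespace Pool.Agent.Lib.K5

open Pool.Agent.Lib.HS32 Pool.Agent.Lib.HS32.Mf Pool.Agent.Lib.KU

theorem tK5 (hK6 : St_K6) (hTR : KU.St_TR) (hK : RBR.St_KIT) (hI : RBR.St_HOL) : St_K5 := by
  intro n M _ X c δ hG hN
  obtain ⟨C, hC⟩ := hK6 n M X c δ hG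
  obtain ⟨r, r₁, r₂, Y, g, A, η, N₁, r₀, s, I, S⟩ := hTR n M X
  have sec : ∀ j F, RBR.Bq X.p X.T j 0 F → ∃ t, M.HSecC (X.Λ.pw j) t ∧
      ∀ x, 0 < X.p x → M.ev t x = F x * M.ev X.τ x ^ j := fun j F h =>
    (X.sec j F h).imp fun t l => ⟨l.1, fun x hx => by
      have := l.2 _ (ch_mem x) _ (ch_tgt x) (by rwa [ch_symm])
      beta_reduce at this
      rwa [ch_symm] at this⟩
  obtain ⟨Λ, l1, l2, l3, B, B0, hB⟩ := low (L := X.Λ) (ψ := X.ψ) (τ := X.τ) (Θ := X.Θ) (a := X.a)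
    (d := δ) (C := C) hK hI Y X.wt (by rw [I.p]; exact ⟨X.hτ, X.lτ⟩) (fun x _ => congrFun I.T x) X.ad.d0 X.cur
    (I.H ▸ X.ze.env) X.ze.mono (I.H ▸ X.ze.mom) (I.H ▸ hN)
    ((hC.sdiff (finite_singleton 0)).mono fun j hj => by
      obtain ⟨⟨m, u, h1, h2, h3⟩, j0⟩ := hj
      rw [one_mul] at h3
      choose t t1 t2 using fun a => sec j _ (h3 a)
      refine ⟨Nat.pos_of_ne_zero j0, m, t, h1, t1, Fintype.linearIndependent_iff.2
        fun v hv => congrFun (h2 v fun x hx => ?_)⟩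
      have e := congrFun hv x
      simp only [Finset.sum_apply, Pi.smul_apply, smul_eq_mul, t2 _ x hx, ← mul_assoc,
        ← Finset.sum_mul] at e
      exact (mul_eq_zero.1 e).resolve_right (pow_ne_zero _
        (X.hτ _ (ch_mem x) _ (ch_tgt x) (by rwa [ch_symm])).2))
  obtain ⟨-, -, k3, k4, -, -, -, -, -, -, -, -, -, -, k7⟩ := hK n _ M _ _ _ _ _ _ _ _ _ Y.fr
  have ae : ∀ᵐ x ∂M.mu Y.H, x ∈ RBR.Oz Y.p Y.σ g := by
    filter_upwards [k4, (k7 g S.tm S.nz).1] with x x1 x2 using ⟨x1.1, x1.2, x2⟩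
  choose t t1 t2 using fun l => sec _ _ (I.p ▸ I.T ▸ S.sec l)
  have := (mMU n M _ Y.fr.kae.toMet).2.1
  refine ⟨_, Nat.mul_pos Y.ro.N0 S.N0, fun y => ?_⟩
  obtain ⟨l, hl⟩ := semi (W := fun _ => 1) (τ := X.τ) (σ := s) Y.fr.kae.toMet X.wt l1 l2 l3 B0 hB t1
    (ae.mono fun x hx => ⟨k3 x hx.1, congrFun I.T x, S.pos x hx, fun l => t2 l x (I.p ▸ hx.1)⟩)
    one_pos aemeasurable_const (by simp) (fun j => by
      have e := S.mom j
      rw [KH.Jo, Measure.restrict_eq_self_of_ae_mem ae] at e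
      simpa only [one_mul] using e) y
  exact ⟨_, t1 l, hl⟩

end Pool.Agent.Lib.K5
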